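import Pool.Agent.MP_7f2bb1_lc.Action
import Pool.Agent.MP_7f2bb1_lc.Series

/-!
One universal first-order sentence about one ternary relation whose labelled counting function is
not ultimately periodic modulo any `m ≥ 2`.
-/

namespace Pool.Agent.Results.MP_7f2bb1_lc.UniversalTernary

open FirstOrder FirstOrder.Language Pool.Agent.MP_7f2bb1_lc

/-- The relation symbols: a single symbol, of arity three. -/
inductive TernSym : ℕ → Type
  | r : TernSym 3

/-- The vocabulary with one ternary relation symbol and nothing else. -/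
def L3 : FirstOrder.Language.{0, 0} := ⟨fun _ => Empty, TernSym⟩

/-- The ternary relation symbol. -/
def r3 : L3.Relations 3 := TernSym.r

/-- The number of structures with universe `{0, ..., n-1}` in which the sentence `φ` is true. -/
noncomputable def numModels (φ : L3.Sentence) (n : ℕ) : ℕ :=
  Nat.card {S : L3.Structure (Fin n) // @Sentence.Realize L3 (Fin n) S φ}

/-- Ultimate periodicity modulo `m`. -/
def UltPeriodicMod (f : ℕ → ℕ) (m : ℕ) : Prop :=
  ∃ N p : ℕ, 1 ≤ p ∧ ∀ n, N ≤ n → f (n + p) ≡ f n [MOD m]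

/-- The structure given by a ternary relation. -/
def ofRel {M : Type} (R : M → M → M → Prop) : L3.Structure M where
  funMap := fun f _ => Empty.elim f
  RelMap := fun r xs => match r with
    | .r => R (xs 0) (xs 1) (xs 2)

/-- The ternary relation of a structure. -/
def toRel {M : Type} (S : L3.Structure M) (x y z : M) : Prop := S.RelMap r3 ![x, y, z]

/-- Structures are the same as ternary relations. -/
def strEquiv (M : Type) : L3.Structure M ≃ (M → M → M → Prop) where
  toFun := toRel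
  invFun := ofRel
  left_inv S := by
    ext n
    · rename_i f xs
      exact Empty.elim f
    · rename_i r xs
      cases r
      have h : xs = ![xs 0, xs 1, xs 2] := by
        funext i
        fin_cases i <;> rfl
      conv_rhs => rw [h]
      rfl
  right_inv R := by
    funext x y z
    rfl

/-- The atomic formula `R x_i x_j x_l`. -/
def at3 (i j l : Fin 4) : L3.BoundedFormula Empty 4 :=
  r3.boundedFormula ![&i, &j, &l]

/-- The atomic formula `x_i = x_j`. -/
def eq2 (i j : Fin 4) : L3.BoundedFormula Empty 4 := Term.bdEqual (&i) (&j)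

/-- Incomparability from the point of view of `x_i`. -/
def smF (i j l : Fin 4) : L3.BoundedFormula Empty 4 := ∼(at3 i j l) ⊓ ∼(at3 i l j)

/-- Nearness. -/
def nrF (i j l : Fin 4) : L3.BoundedFormula Empty 4 := smF l i j ⊓ ∼(smF i j l)

/-- The quantifier-free part of the sentence. -/
def qf : L3.BoundedFormula Empty 4 :=
  ∼(at3 0 1 1) ⊓ (∼(at3 0 0 1) ⊓ (∼(at3 0 1 0) ⊓
  ((at3 0 1 2 ⟹ (at3 0 2 3 ⟹ at3 0 1 3)) ⊓
  ((∼(eq2 0 3) ⟹ (at3 0 1 2 ⟹ (at3 0 1 3 ⊔ at3 0 3 2))) ⊓
  ((∼(eq2 0 1) ⟹ (∼(eq2 1 2) ⟹ (∼(eq2 0 2) ⟹ (smF 0 1 2 ⊔ (smF 1 0 2 ⊔ smF 2 0 1))))) ⊓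
  ((∼(eq2 0 1) ⟹ (∼(eq2 1 2) ⟹ (∼(eq2 0 2) ⟹ (smF 0 1 2 ⟹ (smF 1 0 2 ⟹ smF 2 0 1))))) ⊓
  ((nrF 0 1 2 ⟹ (nrF 0 2 3 ⟹ nrF 0 1 3)) ⊓
  (nrF 0 1 2 ⟹ (nrF 0 2 3 ⟹ ∼(at3 0 2 3 ⊓ at3 0 3 1))))))))))

theorem qf_isQF : qf.IsQF := by
  have h3 : ∀ i j l, (at3 i j l).IsQF := fun i j l => (BoundedFormula.IsAtomic.rel _ _).isQF
  have h2 : ∀ i j, (eq2 i j).IsQF := fun i j => (BoundedFormula.IsAtomic.equal _ _).isQF
  have hs : ∀ i j l, (smF i j l).IsQF := fun i j l => (h3 _ _ _).not.inf (h3 _ _ _).not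
  have hn : ∀ i j l, (nrF i j l).IsQF := fun i j l => (hs _ _ _).inf (hs _ _ _).not
  unfold qf
  refine (h3 _ _ _).not.inf ((h3 _ _ _).not.inf ((h3 _ _ _).not.inf (.inf ?_ (.inf ?_
    (.inf ?_ (.inf ?_ (.inf ?_ ?_)))))))
  · exact (h3 _ _ _).imp ((h3 _ _ _).imp (h3 _ _ _))
  · exact (h2 _ _).not.imp ((h3 _ _ _).imp ((h3 _ _ _).sup (h3 _ _ _)))
  · exact (h2 _ _).not.imp ((h2 _ _).not.imp ((h2 _ _).not.imp
      ((hs _ _ _).sup ((hs _ _ _).sup (hs _ _ _)))))
  · exact (h2 _ _).not.imp ((h2 _ _).not.imp ((h2 _ _).not.imp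
      ((hs _ _ _).imp ((hs _ _ _).imp (hs _ _ _)))))
  · exact (hn _ _ _).imp ((hn _ _ _).imp (hn _ _ _))
  · exact (hn _ _ _).imp ((hn _ _ _).imp ((h3 _ _ _).inf (h3 _ _ _)).not)

section realize

variable {M : Type} (S : L3.Structure M) (v : Empty → M) (xs : Fin 4 → M)

theorem realize_at3 (i j l : Fin 4) :
    @BoundedFormula.Realize L3 M S _ _ (at3 i j l) v xs ↔ toRel S (xs i) (xs j) (xs l) := by
  let _ := S
  unfold at3 toRel
  rw [BoundedFormula.realize_rel]
  have : (fun t : Fin 3 => Term.realize (Sum.elim v xs)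
      ((![&i, &j, &l] : Fin 3 → L3.Term (Empty ⊕ Fin 4)) t)) = ![xs i, xs j, xs l] := by
    funext t
    fin_cases t <;> rfl
  rw [this]

theorem realize_eq2 (i j : Fin 4) :
    @BoundedFormula.Realize L3 M S _ _ (eq2 i j) v xs ↔ xs i = xs j := by
  let _ := S
  unfold eq2
  rw [BoundedFormula.realize_bdEqual]
  rfl

theorem realize_smF (i j l : Fin 4) :
    @BoundedFormula.Realize L3 M S _ _ (smF i j l) v xs ↔ Sm (toRel S) (xs i) (xs j) (xs l) := by
  let _ := S
  unfold smF Sm
  rw [BoundedFormula.realize_inf, BoundedFormula.realize_not, BoundedFormula.realize_not,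
    realize_at3, realize_at3]

theorem realize_nrF (i j l : Fin 4) :
    @BoundedFormula.Realize L3 M S _ _ (nrF i j l) v xs ↔ Nr (toRel S) (xs i) (xs j) (xs l) := by
  let _ := S
  unfold nrF Nr
  rw [BoundedFormula.realize_inf, BoundedFormula.realize_not, realize_smF, realize_smF]

theorem realize_qf : @Sentence.Realize L3 M S qf.alls ↔ Good (toRel S) := by
  let _ := S
  change Formula.Realize qf.alls (default : Empty → M) ↔ Good (toRel S)
  rw [BoundedFormula.realize_alls]
  unfold qf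
  simp only [BoundedFormula.realize_inf, BoundedFormula.realize_imp, BoundedFormula.realize_not,
    BoundedFormula.realize_sup, realize_at3, realize_eq2, realize_smF, realize_nrF]
  constructor
  · intro h
    exact {
      irr := fun z x => (h ![z, x, x, x]).1
      irl := fun z x => (h ![z, x, x, x]).2.1
      irm := fun z x => (h ![z, x, x, x]).2.2.1
      trans := fun z x y w => (h ![z, x, y, w]).2.2.2.1
      ntrans := fun z x y w => (h ![z, x, y, w]).2.2.2.2.1
      apex := fun x y z => (h ![x, y, z, z]).2.2.2.2.2.1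
      two := fun x y z => (h ![x, y, z, z]).2.2.2.2.2.2.1
      ntr := fun x y z w => (h ![x, y, z, w]).2.2.2.2.2.2.2.1
      avoid := fun x y z w => (h ![x, y, z, w]).2.2.2.2.2.2.2.2 }
  · intro h xs
    exact ⟨h.irr _ _, h.irl _ _, h.irm _ _, h.trans _ _ _ _, h.ntrans _ _ _ _, h.apex _ _ _,
      h.two _ _ _, h.ntr _ _ _ _, h.avoid _ _ _ _⟩

end realize

theorem numModels_eq (n : ℕ) : numModels qf.alls n = cnt n := by
  unfold numModels cnt
  apply Nat.card_congr
  exact (strEquiv (Fin n)).subtypeEquiv (fun S => realize_qf S)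

theorem not_ultPeriodic (m : ℕ) (hm : 2 ≤ m) : ¬ UltPeriodicMod cnt m := by
  rintro ⟨N, q, hq, h⟩
  obtain ⟨p, hp, hpm⟩ := Nat.exists_prime_and_dvd (n := m) (by omega)
  have : Fact p.Prime := ⟨hp⟩
  have h1 : ∀ n, N ≤ n → cnt (n + q) ≡ cnt n [MOD p] := fun n hn => (h n hn).of_dvd hpm
  have h2 : ∀ t n, N ≤ n → cnt (n + t * q) ≡ cnt n [MOD p] := by
    intro t
    induction t with
    | zero => intro n _; simp [Nat.ModEq.refl]
    | succ t ih =>
      intro n hn
      have e : n + (t + 1) * q = n + t * q + q := by ring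
      rw [e]
      exact (h1 _ (by omega)).trans (ih n hn)
  have h3 : ∀ n n', N ≤ n → N ≤ n' → n ≡ n' [MOD q] → cnt n ≡ cnt n' [MOD p] := by
    have key : ∀ n n', N ≤ n → n ≤ n' → n ≡ n' [MOD q] → cnt n ≡ cnt n' [MOD p] := by
      intro n n' hn hnn' hmod
      obtain ⟨t, ht⟩ := (Nat.modEq_iff_dvd' hnn').mp hmod
      have e : n' = n + t * q := by
        rw [mul_comm] at ht
        omega
      rw [e]
      exact (h2 t n hn).symm
    intro n n' hn hn' hmod
    rcases le_total n n' with h4 | h4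
    · exact key n n' hn h4 hmod
    · exact (key n' n hn' h4 hmod.symm).symm
  -- powers of `p` repeat modulo `q`
  have : NeZero q := ⟨by omega⟩
  obtain ⟨K, K', hne, hKK⟩ := Finite.exists_ne_map_eq_of_infinite (fun k : ℕ => ((p ^ k : ℕ) : ZMod q))
  wlog hlt : K < K' generalizing K K'
  · exact this K' K hne.symm hKK.symm (by omega)
  have hmod : p ^ K ≡ p ^ K' [MOD q] := (ZMod.natCast_eq_natCast_iff _ _ _).mp hKK
  apply a_not_periodic p (max K N) (K' - K) (by omega)
  intro k hk
  have hkK : K ≤ k := le_trans (le_max_left _ _) hk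
  have hkN : N ≤ k := le_trans (le_max_right _ _) hk
  have e1 : p ^ (k + (K' - K)) ≡ p ^ k [MOD q] := by
    have e2 : k + (K' - K) = (k - K) + K' := by omega
    have e3 : k = (k - K) + K := by omega
    rw [e2, pow_add]
    conv_rhs => rw [e3, pow_add]
    exact Nat.ModEq.mul_left _ hmod.symm
  have hlt1 : ∀ j, j ≤ p ^ j := fun j => (Nat.lt_pow_self hp.one_lt).le
  have e4 := h3 _ _ (le_trans (by omega) (hlt1 (k + (K' - K)))) (le_trans hkN (hlt1 k)) e1
  have e5 := cnt_modEq p (k + (K' - K))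
  have e6 := cnt_modEq p k
  rw [Nat.card_congr (vnEquiv _)] at e5 e6
  exact (e5.symm.trans e4).trans e6

/-- There is a universal first-order sentence with four variables over a single ternary relation
symbol whose labelled counting function is not ultimately periodic modulo any `m ≥ 2`. -/
theorem result : ∃ ψ : L3.BoundedFormula Empty 4, ψ.IsQF ∧
    ∀ m : ℕ, 2 ≤ m → ¬ UltPeriodicMod (numModels ψ.alls) m := by
  refine ⟨qf, qf_isQF, fun m hm h => not_ultPeriodic m hm ?_⟩
  have e : numModels qf.alls = cnt := funext numModels_eq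
  rwa [e] at h

end Pool.Agent.Results.MP_7f2bb1_lc.UniversalTernary
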